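import Pool.Agent.H66.L.S8.Y504.CO.Stm

/-! Project CO: transversality by a small linear perturbation (LIN), by helper832. -/

set_option autoImplicit false

open Filter Set Metric Topology

namespace Pool.Agent.Y832.CO.LIN

open Pool.Agent.H718R2.G Pool.Agent.Y504.CO

theorem main (hG : S_GEN) (hD : S_DIM) : S_LIN := by
  intro n B A hB1 hB2 hinj hA hNB κ hκ
  obtain ⟨P, Q, hPQ, hP, hQ⟩ := hD n B A hB1 hB2 hinj hA hNB
  have hle : Module.finrank ℝ (Q.comap (B 0 : V n →ₗ[ℝ] V n)) ≤ Module.finrank ℝ Q := by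
    let g : (Q.comap (B 0 : V n →ₗ[ℝ] V n)) →ₗ[ℝ] Q :=
      (B 0 : V n →ₗ[ℝ] V n).restrict (fun x hx => hx)
    apply LinearMap.finrank_le_finrank_of_injective (f := g)
    intro x y hxy
    apply Subtype.ext
    apply hinj 0
    exact congrArg Subtype.val hxy
  obtain ⟨T, hT, -, hTP⟩ := hG n P (Q.comap (B 0 : V n →ₗ[ℝ] V n)) (by omega) κ hκ
  refine ⟨T, hT, ?_⟩
  rintro v ⟨C, hC⟩ hv
  have hv0 : v 0 ∈ P := hP v ⟨C, hC⟩ fun i hi => by
    have := hv i
    beta_reduce at this
    rwa [if_neg (by omega)] at this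
  have hv1 : v 1 ∈ Q := hQ v ⟨C, hC⟩ fun i hi => by
    have := hv i
    beta_reduce at this
    rwa [if_neg (by omega)] at this
  have h01 : v 1 = B 0 (v 0 + T (v 0)) := by
    have := hv 0
    simpa using this
  have h0 : v 0 = 0 := by
    apply hTP (v 0) hv0
    rw [Submodule.mem_comap]
    change B 0 (v 0 + T (v 0)) ∈ Q
    rw [← h01]
    exact hv1
  have hpos : ∀ i : ℕ, v (i : ℤ) = 0 := by
    intro i
    induction i with
    | zero => simpa using h0
    | succ i ih =>
      push_cast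
      rw [hv (i : ℤ), ih, map_zero]
  have hneg : ∀ i : ℕ, v (-(i : ℤ)) = 0 := by
    intro i
    induction i with
    | zero => simpa using h0
    | succ i ih =>
      have h1 := hv (-((i : ℤ) + 1))
      beta_reduce at h1
      rw [if_neg (by omega)] at h1
      have h2 : -((i : ℤ) + 1) + 1 = -(i : ℤ) := by ring
      rw [h2, ih] at h1
      apply hinj (-((i : ℤ) + 1))
      push_cast
      rw [map_zero]
      exact h1.symm
  intro i
  rcases le_total 0 i with h | h
  · obtain ⟨k, rfl⟩ := Int.eq_ofNat_of_zero_le h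
    exact hpos k
  · obtain ⟨k, hk⟩ := Int.eq_ofNat_of_zero_le (by omega : 0 ≤ -i)
    have : i = -(k : ℤ) := by omega
    rw [this]
    exact hneg k

end Pool.Agent.Y832.CO.LIN
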